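import Pool.Agent.W810.SYN.Stm

set_option autoImplicit false

namespace Pool.Agent.W796.SYN.LC

open MeasureTheory AddCircle Filter Topology Pool.Agent.Results.MP_535799_an.NonSidon
open Pool.Agent.W810.SYN

noncomputable section

lemma ptw (N₁ : ℕ) (s : ℝ) : ∀ N₂ : ℕ, N₁ ≤ N₂ → 1 / ((N₂ : ℝ) + 1) ≤ s →
    1 / s ≤ (N₁ : ℝ) + 1 + ∑ N ∈ Finset.Ico N₁ N₂, (if s < 1 / ((N : ℝ) + 1) then (1 : ℝ) else 0) := by
  intro N₂ h
  induction N₂, h using Nat.le_induction with
  | base =>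
    intro hs
    have h0 : (0 : ℝ) < (N₁ : ℝ) + 1 := by positivity
    have hp : (0 : ℝ) < 1 / ((N₁ : ℝ) + 1) := by positivity
    have hs0 : 0 < s := lt_of_lt_of_le hp hs
    simp only [Finset.Ico_self, Finset.sum_empty, add_zero]
    rw [div_le_iff₀ hs0]
    rw [div_le_iff₀ h0] at hs
    linarith
  | succ n hn ih =>
    intro hs
    have h0 : (0 : ℝ) < (n : ℝ) + 1 := by positivity
    have h1 : (0 : ℝ) < ((n + 1 : ℕ) : ℝ) + 1 := by positivity
    have hs0 : 0 < s := lt_of_lt_of_le (by positivity) hs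
    rw [Finset.sum_Ico_succ_top hn]
    rcases lt_or_ge s (1 / ((n : ℝ) + 1)) with hlt | hge
    · have hall : ∑ N ∈ Finset.Ico N₁ n, (if s < 1 / ((N : ℝ) + 1) then (1 : ℝ) else 0)
          = (n : ℝ) - N₁ := by
        rw [Finset.sum_congr rfl (g := fun _ => (1 : ℝ))]
        · simp only [Finset.sum_const, Nat.card_Ico, nsmul_eq_mul, mul_one]
          rw [Nat.cast_sub hn]
        · intro N hN
          rw [Finset.mem_Ico] at hN
          rw [if_pos]
          refine lt_of_lt_of_le hlt ?_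
          apply one_div_le_one_div_of_le (by positivity)
          have : (N : ℝ) ≤ n := by exact_mod_cast hN.2.le
          linarith
      rw [hall, if_pos hlt]
      rw [div_le_iff₀ hs0]
      rw [div_le_iff₀ h1] at hs
      push_cast at hs
      nlinarith
    · have := ih hge
      have h2 : (0 : ℝ) ≤ (if s < 1 / ((n : ℝ) + 1) then (1 : ℝ) else 0) := by
        split_ifs <;> norm_num
      linarith

lemma continuous_sd : Continuous sd := by
  unfold sd
  exact (continuous_const.sub (fourier 1 : C(Circ, ℂ)).continuous).norm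

lemma meas_lt (δ : ℝ) : MeasurableSet {x : Circ | sd x < δ} :=
  measurableSet_lt continuous_sd.measurable measurable_const

lemma meas_ge (δ : ℝ) : MeasurableSet {x : Circ | δ ≤ sd x} :=
  measurableSet_le measurable_const continuous_sd.measurable

/-- the majorant -/
def F (N₁ N₂ : ℕ) (x : Circ) : ℝ :=
  ((N₁ : ℝ) + 1) * Set.indicator {x : Circ | sd x < 1 / ((N₁ : ℝ) + 1)} 1 x +
    ∑ N ∈ Finset.Ico N₁ N₂, Set.indicator {x : Circ | sd x < 1 / ((N : ℝ) + 1)} (1 : Circ → ℝ) x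

lemma int_ind (δ : ℝ) : Integrable (Set.indicator {x : Circ | sd x < δ} (1 : Circ → ℝ)) mu :=
  (integrable_const (1 : ℝ)).indicator (meas_lt δ)

lemma int_F (N₁ N₂ : ℕ) : Integrable (F N₁ N₂) mu := by
  unfold F
  exact ((int_ind _).const_mul _).add (integrable_finset_sum _ (fun N _ => int_ind _))

lemma F_nonneg (N₁ N₂ : ℕ) (x : Circ) : 0 ≤ F N₁ N₂ x := by
  unfold F
  have h : ∀ δ : ℝ, 0 ≤ Set.indicator {x : Circ | sd x < δ} (1 : Circ → ℝ) x := fun δ =>
    Set.indicator_nonneg (fun _ _ => zero_le_one) x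
  exact add_nonneg (mul_nonneg (by positivity) (h _)) (Finset.sum_nonneg (fun N _ => h _))

lemma integral_F (h : S_MEAS) (N₁ N₂ : ℕ) : ∫ x, F N₁ N₂ x ∂mu ≤
    1 + ∑ N ∈ Finset.Ico N₁ N₂, 1 / ((N : ℝ) + 1) := by
  have h1 : ∫ x, F N₁ N₂ x ∂mu = ((N₁ : ℝ) + 1) * mu.real {x : Circ | sd x < 1 / ((N₁ : ℝ) + 1)} +
      ∑ N ∈ Finset.Ico N₁ N₂, mu.real {x : Circ | sd x < 1 / ((N : ℝ) + 1)} := by
    unfold F
    rw [integral_add ((int_ind _).const_mul _) (integrable_finset_sum _ (fun N _ => int_ind _)),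
      integral_const_mul, integral_finset_sum _ (fun N _ => int_ind _)]
    rw [integral_indicator_one (meas_lt _)]
    congr 1
    refine Finset.sum_congr rfl (fun N _ => ?_)
    rw [integral_indicator_one (meas_lt _)]
  rw [h1]
  have h2 : ((N₁ : ℝ) + 1) * mu.real {x : Circ | sd x < 1 / ((N₁ : ℝ) + 1)} ≤ 1 := by
    have := h (1 / ((N₁ : ℝ) + 1)) (by positivity)
    have h0 : (0 : ℝ) < (N₁ : ℝ) + 1 := by positivity
    calc ((N₁ : ℝ) + 1) * mu.real {x : Circ | sd x < 1 / ((N₁ : ℝ) + 1)}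
        ≤ ((N₁ : ℝ) + 1) * (1 / ((N₁ : ℝ) + 1)) := mul_le_mul_of_nonneg_left this h0.le
      _ = 1 := by field_simp
  have h3 : ∑ N ∈ Finset.Ico N₁ N₂, mu.real {x : Circ | sd x < 1 / ((N : ℝ) + 1)} ≤
      ∑ N ∈ Finset.Ico N₁ N₂, 1 / ((N : ℝ) + 1) :=
    Finset.sum_le_sum (fun N _ => h _ (by positivity))
  linarith

theorem main (h : S_MEAS) : S_LC := by
  intro N₁ N₂ hN
  have hE : MeasurableSet {x : Circ | 1 / ((N₂ : ℝ) + 1) ≤ sd x ∧ sd x < 1 / ((N₁ : ℝ) + 1)} :=
    (meas_ge _).inter (meas_lt _)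
  have hint : IntegrableOn (fun x : Circ => 1 / sd x)
      {x : Circ | 1 / ((N₂ : ℝ) + 1) ≤ sd x ∧ sd x < 1 / ((N₁ : ℝ) + 1)} mu := by
    refine (integrable_const ((N₂ : ℝ) + 1)).mono' ?_ ?_
    · exact (measurable_const.div continuous_sd.measurable).aestronglyMeasurable
    · refine (ae_restrict_iff' hE).mpr (Filter.Eventually.of_forall ?_)
      intro x hx
      have h0 : (0 : ℝ) < (N₂ : ℝ) + 1 := by positivity
      have hs0 : 0 < sd x := lt_of_lt_of_le (by positivity) hx.1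
      rw [Real.norm_eq_abs, abs_of_pos (by positivity), div_le_iff₀ hs0]
      have := hx.1
      rw [div_le_iff₀ h0] at this
      linarith
  calc ∫ x in {x | 1 / ((N₂ : ℝ) + 1) ≤ sd x ∧ sd x < 1 / ((N₁ : ℝ) + 1)}, 1 / sd x ∂mu
      ≤ ∫ x in {x | 1 / ((N₂ : ℝ) + 1) ≤ sd x ∧ sd x < 1 / ((N₁ : ℝ) + 1)}, F N₁ N₂ x ∂mu := by
        refine setIntegral_mono_on hint (int_F N₁ N₂).integrableOn hE ?_
        intro x hx
        refine (ptw N₁ (sd x) N₂ hN hx.1).trans ?_
        unfold F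
        apply add_le_add
        · rw [Set.indicator_of_mem (show x ∈ {x : Circ | sd x < 1 / ((N₁ : ℝ) + 1)} from hx.2)]
          simp
        · refine Finset.sum_le_sum (fun N _ => ?_)
          by_cases hlt : sd x < 1 / ((N : ℝ) + 1)
          · rw [if_pos hlt, Set.indicator_of_mem (show x ∈ {x : Circ | sd x < 1 / ((N : ℝ) + 1)} from hlt)]
            simp
          · rw [if_neg hlt]
            exact Set.indicator_nonneg (fun _ _ => zero_le_one) x
    _ ≤ ∫ x, F N₁ N₂ x ∂mu :=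
        setIntegral_le_integral (int_F N₁ N₂) (Filter.Eventually.of_forall (F_nonneg N₁ N₂))
    _ ≤ _ := integral_F h N₁ N₂

end

end Pool.Agent.W796.SYN.LC
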